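import Pool.Agent.Work.MP_db9399_px.Interface

/-!
# MP_db9399, block SAMP (helper83): a small random sample classifies a family of subsets
-/

set_option autoImplicit false
set_option linter.unusedSectionVars false

namespace Pool.Agent.Work.MP_db9399_px.helper83

open Finset Classical

universe u

section

variable {V : Type u} [Fintype V] {q : ℕ}

theorem sum_box (t : V → Finset (Fin q)) :
    ∑ f : V → Fin q, (if ∀ a, f a ∈ t a then (1 : ℝ) else 0) = ∏ a, ((t a).card : ℝ) := by
  rw [Finset.sum_boole]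
  have : (Finset.univ.filter fun f : V → Fin q => ∀ a, f a ∈ t a) = Fintype.piFinset t := by
    ext f
    simp [Fintype.mem_piFinset]
  rw [this, Fintype.card_piFinset]
  push_cast
  rfl

theorem prod_split (T : Finset V) (α β : ℝ) :
    (∏ a, if a ∈ T then α else β) * β ^ T.card = α ^ T.card * β ^ Fintype.card V := by
  have h1 : β ^ T.card = ∏ a, if a ∈ T then β else 1 := by
    rw [Finset.prod_ite_mem, Finset.univ_inter, Finset.prod_const]
  have h2 : α ^ T.card = ∏ a, if a ∈ T then α else 1 := by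
    rw [Finset.prod_ite_mem, Finset.univ_inter, Finset.prod_const]
  have h3 : β ^ Fintype.card V = ∏ _a : V, β := by
    rw [Finset.prod_const, Finset.card_univ]
  rw [h1, h2, h3, ← Finset.prod_mul_distrib, ← Finset.prod_mul_distrib]
  refine Finset.prod_congr rfl fun a _ => ?_
  by_cases h : a ∈ T
  · simp [h]
  · simp [h]

/-- the number of functions with prescribed values on `T` -/
theorem sum_eq (hq : 0 < q) (z : Fin q) (T : Finset V) :
    ∑ f : V → Fin q, (if ∀ a ∈ T, f a = z then (1 : ℝ) else 0) =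
      (q : ℝ) ^ Fintype.card V / (q : ℝ) ^ T.card := by
  have hq' : (q : ℝ) ≠ 0 := by exact_mod_cast hq.ne'
  have h1 := sum_box (V := V) (fun a => if a ∈ T then ({z} : Finset (Fin q)) else univ)
  have h2 : ∀ f : V → Fin q, (∀ a, f a ∈ (fun a => if a ∈ T then ({z} : Finset (Fin q)) else univ) a)
      ↔ ∀ a ∈ T, f a = z := by
    intro f
    refine forall_congr' fun a => ?_
    by_cases h : a ∈ T
    · simp [h]
    · simp [h]
  simp only [h2] at h1
  rw [h1, eq_div_iff (pow_ne_zero _ hq')]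
  have h3 : ∏ a : V, (((fun a => if a ∈ T then ({z} : Finset (Fin q)) else univ) a).card : ℝ) =
      ∏ a : V, if a ∈ T then (1 : ℝ) else (q : ℝ) := by
    refine Finset.prod_congr rfl fun a _ => ?_
    by_cases h : a ∈ T
    · simp [h]
    · simp [h]
  rw [h3, prod_split, one_pow, one_mul]

/-- the number of functions which avoid `z` on `T` -/
theorem sum_ne (hq : 0 < q) (z : Fin q) (T : Finset V) :
    ∑ f : V → Fin q, (if ∀ a ∈ T, f a ≠ z then (1 : ℝ) else 0) =
      (q : ℝ) ^ Fintype.card V * (1 - 1 / (q : ℝ)) ^ T.card := by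
  have hq' : (q : ℝ) ≠ 0 := by exact_mod_cast hq.ne'
  have h1 := sum_box (V := V) (fun a => if a ∈ T then ({z} : Finset (Fin q))ᶜ else univ)
  have h2 : ∀ f : V → Fin q,
      (∀ a, f a ∈ (fun a => if a ∈ T then ({z} : Finset (Fin q))ᶜ else univ) a)
      ↔ ∀ a ∈ T, f a ≠ z := by
    intro f
    refine forall_congr' fun a => ?_
    by_cases h : a ∈ T
    · simp [h]
    · simp [h]
  simp only [h2] at h1
  have h3 : ∏ a : V, (((fun a => if a ∈ T then ({z} : Finset (Fin q))ᶜ else univ) a).card : ℝ) =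
      ∏ a : V, if a ∈ T then (q : ℝ) - 1 else (q : ℝ) := by
    refine Finset.prod_congr rfl fun a _ => ?_
    by_cases h : a ∈ T
    · simp only [h, if_true]
      rw [Finset.card_compl, Fintype.card_fin, Finset.card_singleton, Nat.cast_sub hq]
      simp
    · simp [h]
  rw [h1, h3]
  have h4 := prod_split T ((q : ℝ) - 1) (q : ℝ)
  have h5 : (1 - 1 / (q : ℝ)) ^ T.card * (q : ℝ) ^ T.card = ((q : ℝ) - 1) ^ T.card := by
    rw [← mul_pow]
    congr 1
    field_simp
  have h6 : (q : ℝ) ^ T.card ≠ 0 := pow_ne_zero _ hq'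
  apply mul_right_cancel₀ h6
  rw [h4, mul_assoc, h5, mul_comm]

/-- the indicator of `f a = z` -/
noncomputable def iz (z : Fin q) (f : V → Fin q) (a : V) : ℝ := if f a = z then 1 else 0

theorem sum_iz (hq : 0 < q) (z : Fin q) (a : V) :
    ∑ f : V → Fin q, iz z f a = (q : ℝ) ^ Fintype.card V / q := by
  have := sum_eq (V := V) hq z {a}
  rw [Finset.card_singleton, pow_one] at this
  rw [← this]
  refine Finset.sum_congr rfl fun f _ => ?_
  simp [iz]

theorem sum_iz_mul (hq : 0 < q) (z : Fin q) {a b : V} (hab : a ≠ b) :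
    ∑ f : V → Fin q, iz z f a * iz z f b = (q : ℝ) ^ Fintype.card V / (q : ℝ) ^ 2 := by
  have := sum_eq (V := V) hq z {a, b}
  rw [Finset.card_pair hab] at this
  rw [← this]
  refine Finset.sum_congr rfl fun f _ => ?_
  by_cases h1 : f a = z
  · by_cases h2 : f b = z
    · simp [iz, h1, h2]
    · simp [iz, h1, h2]
  · simp [iz, h1]

theorem sum_cov (hq : 0 < q) (z : Fin q) (a b : V) :
    ∑ f : V → Fin q, (iz z f a - 1 / q) * (iz z f b - 1 / q) ≤
      if a = b then (q : ℝ) ^ Fintype.card V / q else 0 := by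
  have hq' : (0 : ℝ) < q := by exact_mod_cast hq
  have hN : ∑ _f : V → Fin q, (1 : ℝ) = (q : ℝ) ^ Fintype.card V := by
    rw [Finset.sum_const, Finset.card_univ, Fintype.card_fun, Fintype.card_fin]
    simp
  have h1 : ∑ f : V → Fin q, (iz z f a - 1 / q) * (iz z f b - 1 / q) =
      ∑ f : V → Fin q, iz z f a * iz z f b - 1 / q * ∑ f : V → Fin q, iz z f a -
        1 / q * ∑ f : V → Fin q, iz z f b + 1 / q * (1 / q) * ∑ _f : V → Fin q, (1 : ℝ) := by
    rw [Finset.mul_sum, Finset.mul_sum, Finset.mul_sum, ← Finset.sum_sub_distrib,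
      ← Finset.sum_sub_distrib, ← Finset.sum_add_distrib]
    refine Finset.sum_congr rfl fun f _ => ?_
    ring
  rw [h1, hN, sum_iz hq, sum_iz hq]
  by_cases hab : a = b
  · subst hab
    rw [if_pos rfl]
    have h2 : ∑ f : V → Fin q, iz z f a * iz z f a = (q : ℝ) ^ Fintype.card V / q := by
      rw [← sum_iz hq z a]
      refine Finset.sum_congr rfl fun f _ => ?_
      unfold iz
      split_ifs <;> simp
    rw [h2]
    have h3 : 0 ≤ 1 / (q : ℝ) * ((q : ℝ) ^ Fintype.card V / q) := by positivity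
    have h4 : 1 / (q : ℝ) * (1 / q) * (q : ℝ) ^ Fintype.card V =
      1 / (q : ℝ) * ((q : ℝ) ^ Fintype.card V / q) := by ring
    rw [h4]
    linarith
  · rw [if_neg hab, sum_iz_mul hq z hab]
    apply le_of_eq
    field_simp
    ring

/-- the variance -/
theorem sum_var (hq : 0 < q) (z : Fin q) (S : Finset V) :
    ∑ f : V → Fin q, (∑ a ∈ S, iz z f a - S.card / q) ^ 2 ≤
      (q : ℝ) ^ Fintype.card V * (S.card / q) := by
  have h1 : ∀ f : V → Fin q, (∑ a ∈ S, iz z f a - (S.card : ℝ) / q) ^ 2 =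
      ∑ a ∈ S, ∑ b ∈ S, (iz z f a - 1 / q) * (iz z f b - 1 / q) := by
    intro f
    rw [← Finset.sum_mul_sum, ← sq]
    congr 1
    rw [Finset.sum_sub_distrib, Finset.sum_const, nsmul_eq_mul]
    ring
  simp only [h1]
  rw [Finset.sum_comm]
  have h2 : ∀ a ∈ S, ∑ f : V → Fin q, ∑ b ∈ S, (iz z f a - 1 / q) * (iz z f b - 1 / q) ≤
      (q : ℝ) ^ Fintype.card V / q := by
    intro a ha
    rw [Finset.sum_comm]
    refine le_trans (Finset.sum_le_sum fun b _ => sum_cov hq z a b) ?_
    rw [Finset.sum_ite_eq, if_pos ha]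
  refine le_trans (Finset.sum_le_sum h2) ?_
  rw [Finset.sum_const, nsmul_eq_mul]
  apply le_of_eq
  ring

end

section main

variable {V : Type u} [Fintype V] {q : ℕ}

/-- the sample -/
noncomputable def smp (A : Finset V) (z : Fin q) (f : V → Fin q) : Finset V :=
  A.filter fun a => f a = z

theorem smp_subset (A : Finset V) (z : Fin q) (f : V → Fin q) : smp A z f ⊆ A :=
  Finset.filter_subset _ _

theorem sum_one : ∑ _f : V → Fin q, (1 : ℝ) = (q : ℝ) ^ Fintype.card V := by
  rw [Finset.sum_const, Finset.card_univ, Fintype.card_fun, Fintype.card_fin, nsmul_eq_mul,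
    mul_one]
  push_cast
  rfl

theorem card_smp {A S : Finset V} (hS : S ⊆ A) (z : Fin q) (f : V → Fin q) :
    ((S ∩ smp A z f).card : ℝ) = ∑ a ∈ S, iz z f a := by
  have h1 : S ∩ smp A z f = S.filter fun a => f a = z := by
    ext a
    simp only [smp, Finset.mem_inter, Finset.mem_filter]
    exact ⟨fun h => ⟨h.1, h.2.2⟩, fun h => ⟨h.1, hS h.1, h.2⟩⟩
  rw [h1, Finset.card_filter]
  push_cast
  rfl

/-- cost of a misclassified set -/
noncomputable def cost (q : ℕ) (θ : ℝ) (S R : Finset V) : ℝ :=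
  if ¬ (θ < ((S ∩ R).card : ℝ) ↔ θ * q < (S.card : ℝ)) then |(S.card : ℝ) - θ * q| else 0

theorem sum_cost (hq : 0 < q) {θ : ℝ} (hθ : 1 ≤ θ) (z : Fin q) {A S : Finset V} (hS : S ⊆ A) :
    ∑ f : V → Fin q, cost q θ S (smp A z f) ≤
      (q : ℝ) ^ Fintype.card V * (4 / √θ * S.card) := by
  have hq' : (0 : ℝ) < q := by exact_mod_cast hq
  have hθ0 : 0 < θ := by linarith
  have hsq : 0 < √θ := Real.sqrt_pos.2 hθ0
  have hsq2 : √θ * √θ = θ := Real.mul_self_sqrt hθ0.le
  have hsq1 : 1 ≤ √θ := Real.one_le_sqrt.2 hθ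
  set N : ℝ := (q : ℝ) ^ Fintype.card V with hN
  have hN0 : 0 < N := pow_pos hq' _
  have hvar := sum_var (V := V) hq z S
  rw [← hN] at hvar
  have hs0 : (0 : ℝ) ≤ S.card := Nat.cast_nonneg _
  set s : ℝ := (S.card : ℝ) with hs
  rcases le_or_gt s (θ * q / 2) with hcase | hcase
  · -- small sets
    have h1 : ∀ f : V → Fin q, cost q θ S (smp A z f) ≤
        4 * q / θ * (∑ a ∈ S, iz z f a - s / q) ^ 2 := by
      intro f
      unfold cost
      rw [card_smp hS, ← hs]
      set X := ∑ a ∈ S, iz z f a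
      by_cases h : (θ < X ↔ θ * q < s)
      · rw [if_neg (not_not.2 h)]
        positivity
      · rw [if_pos h]
        have h2 : ¬ (θ * q < s) := by nlinarith
        have h3 : θ < X := by
          by_contra h3
          exact h ⟨fun h4 => absurd h4 h3, fun h4 => absurd h4 h2⟩
        have h4 : s / q ≤ θ / 2 := by
          rw [div_le_iff₀ hq']
          linarith
        have h5 : θ / 2 ≤ X - s / q := by linarith
        have h6 : (θ / 2) ^ 2 ≤ (X - s / q) ^ 2 := pow_le_pow_left₀ (by linarith) h5 2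
        have h7 : |s - θ * q| ≤ θ * q := by
          rw [abs_le]
          constructor <;> nlinarith
        calc |s - θ * q| ≤ θ * q := h7
          _ = 4 * q / θ * (θ / 2) ^ 2 := by field_simp; ring
          _ ≤ _ := mul_le_mul_of_nonneg_left h6 (by positivity)
    refine le_trans (Finset.sum_le_sum fun f _ => h1 f) ?_
    rw [← Finset.mul_sum]
    refine le_trans (mul_le_mul_of_nonneg_left hvar (by positivity)) ?_
    have h8 : 4 * q / θ * (N * (s / q)) = N * (4 / θ * s) := by
      field_simp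
    rw [h8]
    refine mul_le_mul_of_nonneg_left (mul_le_mul_of_nonneg_right ?_ hs0) hN0.le
    refine div_le_div_of_nonneg_left (by norm_num) hsq ?_
    nlinarith
  · -- large sets
    set x := |s - θ * q| with hx
    have hx0 : 0 ≤ x := abs_nonneg _
    set P : ℝ := ∑ f : V → Fin q,
      (if ¬ (θ < ((S ∩ smp A z f).card : ℝ) ↔ θ * q < s) then (1 : ℝ) else 0) with hP
    have hPx : ∑ f : V → Fin q, cost q θ S (smp A z f) = x * P := by
      rw [hP, Finset.mul_sum]
      refine Finset.sum_congr rfl fun f _ => ?_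
      unfold cost
      split_ifs <;> simp [hx, hs]
    have hP0 : 0 ≤ P := Finset.sum_nonneg fun f _ => by split_ifs <;> norm_num
    have hPN : P ≤ N := by
      have : ∑ _f : V → Fin q, (1 : ℝ) = N := sum_one
      rw [← this]
      exact Finset.sum_le_sum fun f _ => by split_ifs <;> norm_num
    have hPx2 : x ^ 2 * P ≤ N * s * q := by
      rw [hP, Finset.mul_sum]
      have h1 : ∀ f : V → Fin q, x ^ 2 *
          (if ¬ (θ < ((S ∩ smp A z f).card : ℝ) ↔ θ * q < s) then (1 : ℝ) else 0) ≤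
          q ^ 2 * (∑ a ∈ S, iz z f a - s / q) ^ 2 := by
        intro f
        rw [card_smp hS]
        set X := ∑ a ∈ S, iz z f a
        by_cases h : (θ < X ↔ θ * q < s)
        · rw [if_neg (not_not.2 h), mul_zero]
          positivity
        · rw [if_pos h, mul_one, ← mul_pow, hx, sq_abs]
          have h2 : (q : ℝ) * (X - s / q) = q * X - s := by
            field_simp
          rw [h2]
          rcases le_or_gt s (θ * q) with h3 | h3
          · have h4 : θ < X := by
              by_contra h4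
              exact h ⟨fun h5 => absurd h5 h4, fun h5 => absurd h5 (not_lt.2 h3)⟩
            have h5 : θ * q - s ≤ q * X - s := by nlinarith
            have h6 := pow_le_pow_left₀ (by linarith) h5 2
            nlinarith
          · have h4 : X ≤ θ := by
              by_contra h4
              push Not at h4
              exact h ⟨fun _ => h3, fun _ => h4⟩
            have h5 : s - θ * q ≤ s - q * X := by nlinarith
            have h6 := pow_le_pow_left₀ (by linarith) h5 2
            nlinarith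
      refine le_trans (Finset.sum_le_sum fun f _ => h1 f) ?_
      rw [← Finset.mul_sum]
      refine le_trans (mul_le_mul_of_nonneg_left hvar (by positivity)) (le_of_eq ?_)
      field_simp
    rw [hPx]
    have h9 : (x * P) ^ 2 ≤ (N * (4 / √θ * s)) ^ 2 := by
      have h10 : (x * P) ^ 2 ≤ N * s * q * N := by
        calc (x * P) ^ 2 = x ^ 2 * P * P := by ring
          _ ≤ N * s * q * P := mul_le_mul_of_nonneg_right hPx2 hP0
          _ ≤ N * s * q * N := mul_le_mul_of_nonneg_left hPN (by positivity)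
      have h11 : (N * (4 / √θ * s)) ^ 2 = N ^ 2 * (16 / θ * s ^ 2) := by
        rw [mul_pow, mul_pow, div_pow, Real.sq_sqrt hθ0.le]
        norm_num
      rw [h11]
      refine le_trans h10 ?_
      have h12 : N * s * q * N = N ^ 2 * (s * q) := by ring
      rw [h12]
      refine mul_le_mul_of_nonneg_left ?_ (by positivity)
      have h13 : (q : ℝ) ≤ 2 * s / θ := by
        rw [le_div_iff₀ hθ0]
        linarith
      calc s * q ≤ s * (2 * s / θ) := mul_le_mul_of_nonneg_left h13 hs0
        _ = 2 / θ * s ^ 2 := by ring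
        _ ≤ 16 / θ * s ^ 2 := by
          refine mul_le_mul_of_nonneg_right ?_ (by positivity)
          exact div_le_div_of_nonneg_right (by norm_num) hθ0.le
    exact le_of_sq_le_sq h9 (by positivity)

theorem sum_miss (hq : 0 < q) {θ : ℝ} (hθ : 1 ≤ θ) (z : Fin q) {A S : Finset V} (hS : S ⊆ A) :
    ∑ f : V → Fin q, (if θ * q < (S.card : ℝ) ∧ S ∩ smp A z f = ∅ then (1 : ℝ) else 0) ≤
      (q : ℝ) ^ Fintype.card V * (Real.exp (-θ) / (θ * q) * S.card) := by
  have hq' : (0 : ℝ) < q := by exact_mod_cast hq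
  have hθ0 : 0 < θ := by linarith
  have hq1 : (1 : ℝ) ≤ q := by exact_mod_cast hq
  by_cases hc : θ * q < (S.card : ℝ)
  · have h1 : ∀ f : V → Fin q, (if θ * q < (S.card : ℝ) ∧ S ∩ smp A z f = ∅ then (1 : ℝ) else 0)
        = if ∀ a ∈ S, f a ≠ z then (1 : ℝ) else 0 := by
      intro f
      have : (θ * q < (S.card : ℝ) ∧ S ∩ smp A z f = ∅) ↔ ∀ a ∈ S, f a ≠ z := by
        rw [Finset.eq_empty_iff_forall_notMem]
        constructor
        · rintro ⟨-, h⟩ a ha h2
          exact h a (Finset.mem_inter.2 ⟨ha, Finset.mem_filter.2 ⟨hS ha, h2⟩⟩)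
        · intro h
          refine ⟨hc, fun a ha => ?_⟩
          exact h a (Finset.mem_inter.1 ha).1 (Finset.mem_filter.1 (Finset.mem_inter.1 ha).2).2
      simp only [this]
    simp only [h1]
    rw [sum_ne hq]
    refine mul_le_mul_of_nonneg_left ?_ (by positivity)
    have h2 : 0 ≤ 1 - 1 / (q : ℝ) := by
      rw [sub_nonneg, div_le_one hq']
      exact hq1
    have h3 : (1 - 1 / (q : ℝ)) ^ S.card ≤ Real.exp (-(1 / q)) ^ S.card :=
      pow_le_pow_left₀ h2 (Real.one_sub_le_exp_neg _) _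
    refine le_trans h3 ?_
    rw [← Real.exp_nat_mul]
    have h4 : Real.exp ((S.card : ℝ) * -(1 / q)) ≤ Real.exp (-θ) := by
      apply Real.exp_le_exp.2
      have : θ ≤ (S.card : ℝ) / q := by
        rw [le_div_iff₀ hq']
        exact hc.le
      have h5 : (S.card : ℝ) * -(1 / q) = -((S.card : ℝ) / q) := by ring
      rw [h5]
      linarith
    refine le_trans h4 ?_
    have h6 : 1 ≤ (S.card : ℝ) / (θ * q) := by
      rw [one_le_div (by positivity)]
      exact hc.le
    calc Real.exp (-θ) = Real.exp (-θ) * 1 := (mul_one _).symm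
      _ ≤ Real.exp (-θ) * ((S.card : ℝ) / (θ * q)) :=
        mul_le_mul_of_nonneg_left h6 (Real.exp_pos _).le
      _ = _ := by ring
  · have h1 : ∀ f : V → Fin q, (if θ * q < (S.card : ℝ) ∧ S ∩ smp A z f = ∅ then (1 : ℝ) else 0)
        = 0 := by
      intro f
      rw [if_neg]
      rintro ⟨h, -⟩
      exact hc h
    simp only [h1, Finset.sum_const_zero]
    have := Real.exp_pos (-θ)
    positivity

theorem e1_aux {N a b : ℝ} (hb : b ≠ 0) (ha : a ≠ 0) : N * (a / b) * (b / a) = N := by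
  field_simp

theorem main {W : Type u} (A : Finset V) (D : Finset W) (S : W → Finset V) (θ : ℝ)
    (hq : 0 < q) (hθ : 1 ≤ θ) (hA : A.Nonempty) (hS : ∀ w ∈ D, S w ⊆ A)
    (hT : 0 < ∑ w ∈ D, (S w).card) :
    ∃ R : Finset V, R ⊆ A ∧ (R.card : ℝ) * q ≤ 3 * A.card ∧
      (∑ w ∈ D.filter (fun w => ¬ (θ < ((S w ∩ R).card : ℝ) ↔ θ * q < ((S w).card : ℝ))),
        |((S w).card : ℝ) - θ * q| ≤ 18 / √θ * ∑ w ∈ D, ((S w).card : ℝ)) ∧
      (((D.filter (fun w => θ * q < ((S w).card : ℝ) ∧ S w ∩ R = ∅)).card : ℝ) ≤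
        3 * Real.exp (-θ) / (θ * q) * ∑ w ∈ D, ((S w).card : ℝ)) := by
  have hq' : (0 : ℝ) < q := by exact_mod_cast hq
  have hθ0 : 0 < θ := by linarith
  have hsq : 0 < √θ := Real.sqrt_pos.2 hθ0
  have hA' : (0 : ℝ) < A.card := by exact_mod_cast hA.card_pos
  have hT' : (0 : ℝ) < ∑ w ∈ D, ((S w).card : ℝ) := by exact_mod_cast hT
  set T : ℝ := ∑ w ∈ D, ((S w).card : ℝ) with hTdef
  have hexp := Real.exp_pos (-θ)
  let z : Fin q := ⟨0, hq⟩
  set N : ℝ := (q : ℝ) ^ Fintype.card V with hN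
  have hN0 : 0 < N := pow_pos hq' _
  have hNsum : ∑ _f : V → Fin q, (1 : ℝ) = N := sum_one
  -- the three quantities
  obtain ⟨F1, hF1d⟩ : ∃ F1 : (V → Fin q) → ℝ, ∀ f, F1 f = ((smp A z f).card : ℝ) := ⟨_, fun _ => rfl⟩
  obtain ⟨F2, hF2d⟩ : ∃ F2 : (V → Fin q) → ℝ, ∀ f, F2 f = ∑ w ∈ D, cost q θ (S w) (smp A z f) :=
    ⟨_, fun _ => rfl⟩
  obtain ⟨F3, hF3d⟩ : ∃ F3 : (V → Fin q) → ℝ, ∀ f, F3 f = ∑ w ∈ D,
    (if θ * q < ((S w).card : ℝ) ∧ S w ∩ smp A z f = ∅ then (1 : ℝ) else 0) := ⟨_, fun _ => rfl⟩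
  have hF1 : ∑ f, F1 f = N * (A.card / q) := by
    have h1 : ∀ f, F1 f = ∑ a ∈ A, iz z f a := by
      intro f
      rw [hF1d, ← card_smp (subset_refl A), Finset.inter_eq_right.2 (smp_subset A z f)]
    simp only [h1]
    rw [Finset.sum_comm]
    simp only [sum_iz hq]
    rw [Finset.sum_const, nsmul_eq_mul, ← hN]
    ring
  have hF2 : ∑ f, F2 f ≤ N * (4 / √θ * T) := by
    simp only [hF2d]
    rw [Finset.sum_comm]
    refine le_trans (Finset.sum_le_sum fun w hw => sum_cost hq hθ z (hS w hw)) ?_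
    rw [← Finset.mul_sum, ← Finset.mul_sum]
  have hF3 : ∑ f, F3 f ≤ N * (Real.exp (-θ) / (θ * q) * T) := by
    simp only [hF3d]
    rw [Finset.sum_comm]
    refine le_trans (Finset.sum_le_sum fun w hw => sum_miss hq hθ z (hS w hw)) ?_
    rw [← Finset.mul_sum, ← Finset.mul_sum]
  have hF2' : ∀ f, 0 ≤ F2 f := fun f => by
    rw [hF2d]
    refine Finset.sum_nonneg fun w _ => ?_
    unfold cost
    by_cases h : (θ < ((S w ∩ smp A z f).card : ℝ) ↔ θ * q < ((S w).card : ℝ))
    · rw [if_neg (not_not.2 h)]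
    · rw [if_pos h]
      exact abs_nonneg _
  have hF3' : ∀ f, 0 ≤ F3 f := fun f => by
    rw [hF3d]
    refine Finset.sum_nonneg fun w _ => ?_
    split_ifs <;> norm_num
  have hF1' : ∀ f, 0 ≤ F1 f := fun f => by
    rw [hF1d]
    exact Nat.cast_nonneg _
  set B2 : ℝ := 6 / √θ * T with hB2
  set B3 : ℝ := Real.exp (-θ) / (θ * q) * T with hB3
  have hB2' : 0 < B2 := mul_pos (div_pos (by norm_num) hsq) hT'
  have hB3' : 0 < B3 := mul_pos (div_pos hexp (mul_pos hθ0 hq')) hT'
  have hsum : ∑ f, (F1 f * (q / A.card) + F2 f / B2 + F3 f / B3) ≤ ∑ _f : V → Fin q, (3 : ℝ) := by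
    rw [Finset.sum_add_distrib, Finset.sum_add_distrib, ← Finset.sum_mul, ← Finset.sum_div,
      ← Finset.sum_div, hF1]
    have h3 : ∑ _f : V → Fin q, (3 : ℝ) = 3 * N := by
      rw [← hNsum, Finset.mul_sum]
      exact Finset.sum_congr rfl fun _ _ => (mul_one _).symm
    rw [h3]
    have e1 : N * ((A.card : ℝ) / q) * (q / A.card) = N := e1_aux hq'.ne' hA'.ne'
    have e2 : (∑ f, F2 f) / B2 ≤ N := by
      rw [div_le_iff₀ hB2']
      refine le_trans hF2 (mul_le_mul_of_nonneg_left ?_ hN0.le)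
      rw [hB2]
      refine mul_le_mul_of_nonneg_right ?_ hT'.le
      exact div_le_div_of_nonneg_right (by norm_num) hsq.le
    have e3 : (∑ f, F3 f) / B3 ≤ N := by
      rw [div_le_iff₀ hB3']
      exact hF3
    linarith
  have hne : (Finset.univ : Finset (V → Fin q)).Nonempty := ⟨fun _ => z, Finset.mem_univ _⟩
  obtain ⟨f, -, hf⟩ := Finset.exists_le_of_sum_le hne hsum
  have g1 : 0 ≤ F1 f * (q / A.card) := mul_nonneg (hF1' f) (div_nonneg hq'.le hA'.le)
  have g2 : 0 ≤ F2 f / B2 := div_nonneg (hF2' f) hB2'.le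
  have g3 : 0 ≤ F3 f / B3 := div_nonneg (hF3' f) hB3'.le
  refine ⟨smp A z f, smp_subset A z f, ?_, ?_, ?_⟩
  · have h1 : F1 f * (q / A.card) ≤ 3 := by linarith
    have h2 : F1 f * (q / A.card) = F1 f * q / A.card := by ring
    rw [h2, div_le_iff₀ hA', hF1d] at h1
    exact h1
  · have h1 : F2 f / B2 ≤ 3 := by linarith
    rw [div_le_iff₀ hB2', hF2d] at h1
    have h2 : ∑ w ∈ D, cost q θ (S w) (smp A z f) = ∑ w ∈ D.filter (fun w => ¬ (θ < ((S w ∩ smp A z f).card : ℝ) ↔
        θ * q < ((S w).card : ℝ))), |((S w).card : ℝ) - θ * q| := by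
      rw [Finset.sum_filter]
      rfl
    rw [← h2]
    refine le_trans h1 (le_of_eq ?_)
    rw [hB2]
    ring
  · have h1 : F3 f / B3 ≤ 3 := by linarith
    rw [div_le_iff₀ hB3', hF3d] at h1
    have h2 : ∑ w ∈ D, (if θ * q < ((S w).card : ℝ) ∧ S w ∩ smp A z f = ∅ then (1 : ℝ) else 0) = ((D.filter (fun w => θ * q < ((S w).card : ℝ) ∧
        S w ∩ smp A z f = ∅)).card : ℝ) := by
      rw [Finset.card_filter]
      push_cast
      rfl
    rw [← h2]
    refine le_trans h1 (le_of_eq ?_)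
    rw [hB3]
    ring

end main

theorem stmt_SAMP : Stmt_SAMP.{u} := by
  intro V W _ A D S q θ hq hθ hA hS hT
  exact main A D S θ hq hθ hA hS hT

end Pool.Agent.Work.MP_db9399_px.helper83
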