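import Pool.Agent.Work.MP_db9399_px_helper50.EVF

/-!
# MP_db9399, block EVS (helper83): neighbourhoods stay sparse in unions of atoms
-/

set_option autoImplicit false
set_option linter.unusedSectionVars false

namespace Pool.Agent.Work.MP_db9399_px.helper83

open Finset Classical
open Pool.Agent.Work.MP_db9399_all (nb pr DepOnI PackI)
open Pool.Agent.Work.MP_db9399_px.helper50

universe u

section

variable {V : Type u} [Fintype V] {M : ℕ} (blk : V → V) (pos : V → Fin M)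

/-- number of adjacent pairs of `N` inside the union of atoms -/
noncomputable def sq (G : SimpleGraph V) (P : Finset (Fin M)) (N : Finset V)
    (f : V → Fin (M.factorial)) : ℝ :=
  ∑ a ∈ N, ∑ b ∈ nb G a ∩ N, xx blk pos P a f * xx blk pos P b f

theorem ee_eq (G : SimpleGraph V) (P : Finset (Fin M)) (N : Finset V)
    (f : V → Fin (M.factorial)) :
    ee G (N ∩ cc M blk pos f P) (N ∩ cc M blk pos f P) = sq blk pos G P N f := by
  unfold ee sq
  have h1 : N ∩ cc M blk pos f P = N.filter (fun v => atm M blk pos f v ∈ P) := by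
    ext v; simp [cc]
  have h2 : ∀ a, ((nb G a ∩ (N ∩ cc M blk pos f P)).card : ℝ) =
      ∑ b ∈ nb G a ∩ N, xx blk pos P b f := by
    intro a
    rw [← Finset.inter_assoc, card_cc]
  simp only [h2]
  rw [h1, Finset.sum_filter]
  refine Finset.sum_congr rfl fun a _ => ?_
  rw [← Finset.mul_sum]
  unfold xx
  split_ifs <;> simp

theorem sum_swap (G : SimpleGraph V) (N : Finset V) (g : V → ℝ) :
    ∑ a ∈ N, ∑ b ∈ nb G a ∩ N, g b = ∑ b ∈ N, ∑ _a ∈ nb G b ∩ N, g b := by
  refine Finset.sum_comm' fun a b => ?_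
  simp only [nb, mem_inter, mem_filter, mem_univ, true_and]
  constructor
  · rintro ⟨h1, h2, h3⟩
    exact ⟨⟨h2.symm, h1⟩, h3⟩
  · rintro ⟨⟨h1, h2⟩, h3⟩
    exact ⟨h2, h1.symm, h3⟩

theorem infl_sq (G : SimpleGraph V) (d : ℕ) (hd : ∀ v, (nb G v).card ≤ d) (P : Finset (Fin M))
    (N : Finset V) (y : V) (f f' : V → Fin (M.factorial)) (h : ∀ z, z ≠ y → f z = f' z) :
    |sq blk pos G P N f - sq blk pos G P N f'| ≤ 2 * d * na blk N y := by
  have h1 : |sq blk pos G P N f - sq blk pos G P N f'| ≤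
      ∑ a ∈ N, ∑ b ∈ nb G a ∩ N,
        ((if blk a = y then (1 : ℝ) else 0) + (if blk b = y then (1 : ℝ) else 0)) := by
    unfold sq
    rw [← Finset.sum_sub_distrib]
    refine (Finset.abs_sum_le_sum_abs _ _).trans (Finset.sum_le_sum fun a _ => ?_)
    rw [← Finset.sum_sub_distrib]
    exact (Finset.abs_sum_le_sum_abs _ _).trans
      (Finset.sum_le_sum fun b _ => xx_diff2 blk pos P P a b y f f' h)
  refine h1.trans ?_
  simp only [Finset.sum_add_distrib]
  have hcard : ∀ a, ((nb G a ∩ N).card : ℝ) ≤ d := fun a =>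
    by exact_mod_cast (Finset.card_le_card Finset.inter_subset_left).trans (hd a)
  have h2 : ∑ a ∈ N, ∑ _b ∈ nb G a ∩ N, (if blk a = y then (1 : ℝ) else 0) ≤ d * na blk N y := by
    unfold na
    rw [Finset.mul_sum]
    refine Finset.sum_le_sum fun a _ => ?_
    rw [Finset.sum_const, nsmul_eq_mul]
    refine mul_le_mul_of_nonneg_right (hcard a) ?_
    split_ifs <;> norm_num
  have h3 : ∑ a ∈ N, ∑ b ∈ nb G a ∩ N, (if blk b = y then (1 : ℝ) else 0) ≤ d * na blk N y := by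
    rw [sum_swap G N fun b => if blk b = y then (1 : ℝ) else 0]
    exact h2
  linarith

theorem avg_sq (hUNI : Stmt_UNI.{u}) (hM : 0 < M) (hb : Blocks M blk pos) (G : SimpleGraph V)
    (P : Finset (Fin M)) (N : Finset V) :
    avg (sq blk pos G P N) ≤ ((P.card : ℝ) / M) ^ 2 * ee G N N + M * N.card := by
  have hP : P.card ≤ M := by simpa using Finset.card_le_univ P
  have e1 : avg (sq blk pos G P N) =
      ∑ a ∈ N, ∑ b ∈ nb G a ∩ N, avg (fun f => xx blk pos P a f * xx blk pos P b f) := by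
    unfold sq
    rw [avg_sum]
    refine Finset.sum_congr rfl fun a _ => ?_
    rw [avg_sum]
  have e2 : ((P.card : ℝ) / M) ^ 2 * ee G N N =
      ∑ a ∈ N, ∑ _b ∈ nb G a ∩ N, ((P.card : ℝ) / M) ^ 2 := by
    unfold ee
    rw [Finset.mul_sum]
    refine Finset.sum_congr rfl fun a _ => ?_
    rw [Finset.sum_const, nsmul_eq_mul, mul_comm]
  have e3 : (M : ℝ) * N.card = ∑ _a ∈ N, (M : ℝ) := by
    rw [Finset.sum_const, nsmul_eq_mul, mul_comm]
  rw [e1, e2, e3, ← Finset.sum_add_distrib]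
  refine Finset.sum_le_sum fun a _ => ?_
  have h1 : ∑ b ∈ nb G a ∩ N, avg (fun f => xx blk pos P a f * xx blk pos P b f) -
      ∑ _b ∈ nb G a ∩ N, ((P.card : ℝ) / M) ^ 2 ≤ M := by
    rw [← Finset.sum_sub_distrib]
    refine le_trans (Finset.sum_le_sum fun b _ => le_trans (le_abs_self _)
      (avg_xx2 blk pos hUNI hM hb P P rfl hP a b)) ?_
    exact na_le blk hb _ _
  linarith

theorem sum_sq_le (hb : Blocks M blk pos) (d : ℕ) (N : Finset V) (hN : N.card ≤ d) :
    ∑ y, (2 * d * na blk N y) ^ 2 ≤ 4 * M * (d : ℝ) ^ 3 := by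
  have h1 : ∀ y, (2 * d * na blk N y) ^ 2 ≤ 4 * (d : ℝ) ^ 2 * M * na blk N y := by
    intro y
    have h2 := na_le blk hb N y
    have h3 := na_nonneg blk N y
    have h4 : na blk N y ^ 2 ≤ M * na blk N y := by nlinarith
    calc (2 * d * na blk N y) ^ 2 = 4 * (d : ℝ) ^ 2 * na blk N y ^ 2 := by ring
      _ ≤ 4 * (d : ℝ) ^ 2 * (M * na blk N y) := mul_le_mul_of_nonneg_left h4 (by positivity)
      _ = _ := by ring
  refine le_trans (Finset.sum_le_sum fun y _ => h1 y) ?_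
  rw [← Finset.mul_sum, na_sum]
  have hN' : (N.card : ℝ) ≤ d := by exact_mod_cast hN
  calc 4 * (d : ℝ) ^ 2 * M * N.card ≤ 4 * (d : ℝ) ^ 2 * M * d :=
        mul_le_mul_of_nonneg_left hN' (by positivity)
    _ = _ := by ring

end

theorem stmt_EVS (hPBM : Stmt_PBM.{u}) (hUNI : Stmt_UNI.{u}) : Stmt_EVS.{u} := by
  intro M δ hM hδ hδ1
  have hM' : (1 : ℝ) ≤ M := by exact_mod_cast hM
  obtain ⟨d0, hd0⟩ := exists_nat_ge (2 * (M : ℝ) / δ + 1)
  have hd01 : (1 : ℝ) ≤ d0 := by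
    have : 0 ≤ 2 * (M : ℝ) / δ := by positivity
    linarith
  refine ⟨d0, by exact_mod_cast hd01, ?_⟩
  intro V _ G d blk pos P v hd hdeg hb
  have hdR' : (d0 : ℝ) ≤ d := by exact_mod_cast hd
  have hd1 : (1 : ℝ) ≤ d := le_trans hd01 hdR'
  have hdR : 2 * (M : ℝ) ≤ d * δ := by
    have : 2 * (M : ℝ) / δ ≤ d := by linarith
    rwa [div_le_iff₀ hδ] at this
  have hs : ∑ y, (2 * d * na blk (nb G v) y) ^ 2 ≤ 4 * M * (d : ℝ) ^ 3 :=
    sum_sq_le blk pos hb d (nb G v) (hdeg v)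
  have h := hPBM (M.factorial) (sq blk pos G P (nb G v)) (fun y => 2 * d * na blk (nb G v) y)
    (4 * M * (d : ℝ) ^ 3) (δ / 2 * (d : ℝ) ^ 2) (Nat.factorial_pos _)
    (fun y f f' hff => infl_sq blk pos G d hdeg P (nb G v) y f f' hff) hs (by positivity)
    (by positivity)
  have e : -(δ / 2 * (d : ℝ) ^ 2) ^ 2 / (2 * (4 * M * (d : ℝ) ^ 3)) = -(δ ^ 2 / (32 * M) * d) := by
    field_simp
    ring
  rw [e] at h
  refine le_trans (pr_mono fun f hf => ?_) h
  rw [ee_eq] at hf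
  have h1 := avg_sq blk pos hUNI hM hb G P (nb G v)
  have h2 : (M : ℝ) * (nb G v).card ≤ M * d := by
    refine mul_le_mul_of_nonneg_left ?_ (by linarith)
    exact_mod_cast hdeg v
  have h3 : (M : ℝ) * d ≤ δ / 2 * (d : ℝ) ^ 2 := by nlinarith
  refine le_trans ?_ (le_abs_self _)
  nlinarith

end Pool.Agent.Work.MP_db9399_px.helper83
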